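import Mathlib

/-!
# Long flip sequences: the combinatorial model (points and lines on the real line)

Positions are real numbers `x p`, lines are `y = a l * x + b l`.  A state is a permutation
`σ : position → line`.  A flip exchanges the lines at two positions `x p < x q` when the line at `p`
is above the line at `q` both at `x p` and at `x q`.
-/

set_option autoImplicit false

namespace Pool.Agent.FlipSeq

open Equiv

/-- Sequences of flips. -/
inductive Path {ι : Type} [DecidableEq ι] (x a b : ι → ℝ) :
    Perm ι → List (ι × ι) → Perm ι → Prop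
  | nil (σ : Perm ι) : Path x a b σ [] σ
  | cons {σ τ : Perm ι} {p q : ι} {L : List (ι × ι)}
      (h1 : x p < x q)
      (h2 : a (σ q) * x p + b (σ q) < a (σ p) * x p + b (σ p))
      (h3 : a (σ q) * x q + b (σ q) < a (σ p) * x q + b (σ p))
      (h : Path x a b (σ * swap p q) L τ) : Path x a b σ ((p, q) :: L) τ

theorem Path.append {ι : Type} [DecidableEq ι] {x a b : ι → ℝ} {σ τ ρ : Perm ι}
    {L M : List (ι × ι)} (h : Path x a b σ L τ) (h' : Path x a b τ M ρ) :
    Path x a b σ (L ++ M) ρ := by
  induction h with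
  | nil σ => simpa using h'
  | cons h1 h2 h3 _ ih => exact Path.cons h1 h2 h3 (ih h')

/-- The lifted state: the two copies of a line sit, in increasing local order, at the two copies of
the position. -/
def lift {ι : Type} (sd : ι → Bool) (σ : Perm ι) : Perm (ι × Bool) where
  toFun u := (σ u.1, xor u.2 (sd u.1))
  invFun v := (σ.symm v.1, xor v.2 (sd (σ.symm v.1)))
  left_inv u := by
    rcases u with ⟨p, c⟩
    simp
  right_inv v := by
    rcases v with ⟨p, c⟩
    simp

@[simp] theorem lift_apply {ι : Type} (sd : ι → Bool) (σ : Perm ι) (u : ι × Bool) :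
    lift sd σ u = (σ u.1, xor u.2 (sd u.1)) := rfl

/-- The simulation of one flip. -/
def sim {ι : Type} (sd : ι → Bool) (f : ι × ι) : List ((ι × Bool) × (ι × Bool)) :=
  if sd f.1 = sd f.2 then
    [((f.1, false), (f.2, true)), ((f.1, false), (f.2, false)),
     ((f.1, true), (f.2, true)), ((f.1, true), (f.2, false))]
  else
    [((f.1, true), (f.2, false)), ((f.1, false), (f.1, true)), ((f.2, false), (f.2, true)),
     ((f.1, true), (f.2, false)), ((f.1, false), (f.1, true)), ((f.2, false), (f.2, true))]

/-- The order-theoretic properties of a blow-up. -/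
structure Blow {ι : Type} (x a b : ι → ℝ) (t : ℝ) (x' a' b' : ι × Bool → ℝ) : Prop where
  H1 : ∀ p c l d l' d', a l' * x p + b l' < a l * x p + b l →
    a' (l', d') * x' (p, c) + b' (l', d') < a' (l, d) * x' (p, c) + b' (l, d)
  H2 : ∀ p c l, x p < t →
    a' (l, false) * x' (p, c) + b' (l, false) < a' (l, true) * x' (p, c) + b' (l, true)
  H3 : ∀ p c l, t < x p →
    a' (l, true) * x' (p, c) + b' (l, true) < a' (l, false) * x' (p, c) + b' (l, false)
  H4 : ∀ p q c d, x p < x q → x' (p, c) < x' (q, d)
  H5 : ∀ p, x' (p, false) < x' (p, true)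

theorem Blow.up {ι : Type} {x a b : ι → ℝ} {t : ℝ} {x' a' b' : ι × Bool → ℝ}
    (B : Blow x a b t x' a' b') (ht : ∀ p, x p ≠ t) (p : ι) (c : Bool) (l : ι) :
    a' (l, decide (t < x p)) * x' (p, c) + b' (l, decide (t < x p)) <
      a' (l, !decide (t < x p)) * x' (p, c) + b' (l, !decide (t < x p)) := by
  rcases lt_or_gt_of_ne (ht p) with h | h
  · have : decide (t < x p) = false := by simpa using h.le
    rw [this]
    exact B.H2 p c l h
  · have : decide (t < x p) = true := by simpa using h
    rw [this]
    exact B.H3 p c l h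

theorem lift_same {ι : Type} [DecidableEq ι] (sd : ι → Bool) (σ : Perm ι) (p q : ι)
    (hpq : p ≠ q) (hs : sd p = sd q) :
    lift sd (σ * swap p q) =
        lift sd σ * swap (p, false) (q, true) *
          swap (p, false) (q, false) * swap (p, true) (q, true) * swap (p, true) (q, false) := by
  have hqp : q ≠ p := hpq.symm
  apply Equiv.ext
  rintro ⟨r, c⟩
  by_cases hr : r = p
  · subst hr
    cases c <;> simp [Equiv.Perm.mul_apply, Equiv.swap_apply_def, hpq, hqp, hs]
  · by_cases hr' : r = q
    · subst hr'
      cases c <;> simp [Equiv.Perm.mul_apply, Equiv.swap_apply_def, hpq, hqp, hs]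
    · cases c <;> simp [Equiv.Perm.mul_apply, Equiv.swap_apply_def, hr, hr']

theorem lift_diff {ι : Type} [DecidableEq ι] (sd : ι → Bool) (σ : Perm ι) (p q : ι)
    (hpq : p ≠ q) (hp : sd p = false) (hq : sd q = true) :
    lift sd (σ * swap p q) =
        lift sd σ * swap (p, true) (q, false) * swap (p, false) (p, true) *
          swap (q, false) (q, true) * swap (p, true) (q, false) *
          swap (p, false) (p, true) * swap (q, false) (q, true) := by
  have hqp : q ≠ p := hpq.symm
  apply Equiv.ext
  rintro ⟨r, c⟩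
  by_cases hr : r = p
  · subst hr
    cases c <;> simp [Equiv.Perm.mul_apply, Equiv.swap_apply_def, hpq, hqp, hp, hq]
  · by_cases hr' : r = q
    · subst hr'
      cases c <;> simp [Equiv.Perm.mul_apply, Equiv.swap_apply_def, hpq, hqp, hp, hq]
    · cases c <;> simp [Equiv.Perm.mul_apply, Equiv.swap_apply_def, hr, hr']

theorem sim_path {ι : Type} [DecidableEq ι] {x a b : ι → ℝ} {t : ℝ} {x' a' b' : ι × Bool → ℝ}
    (B : Blow x a b t x' a' b') (ht : ∀ p, x p ≠ t) (σ : Perm ι) (p q : ι)
    (h1 : x p < x q)
    (h2 : a (σ q) * x p + b (σ q) < a (σ p) * x p + b (σ p))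
    (h3 : a (σ q) * x q + b (σ q) < a (σ p) * x q + b (σ p)) :
    Path x' a' b' (lift (fun p => decide (t < x p)) σ) (sim (fun p => decide (t < x p)) (p, q))
      (lift (fun p => decide (t < x p)) (σ * swap p q)) := by
  have hpq : p ≠ q := by
    rintro rfl
    exact lt_irrefl _ h1
  have hqp : q ≠ p := hpq.symm
  by_cases hs : decide (t < x p) = decide (t < x q)
  · -- same side
    have hu1 := B.up ht p
    have hu2 := B.up ht q
    rw [← hs] at hu2
    have hsim : sim (fun p => decide (t < x p)) (p, q) =
      [((p, false), (q, true)), ((p, false), (q, false)),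
        ((p, true), (q, true)), ((p, true), (q, false))] := by
      simp only [sim]
      rw [if_pos hs]
    rw [hsim, lift_same _ _ _ _ hpq hs]
    refine Path.cons (B.H4 _ _ _ _ h1) ?_ ?_ (Path.cons (B.H4 _ _ _ _ h1) ?_ ?_
      (Path.cons (B.H4 _ _ _ _ h1) ?_ ?_ (Path.cons (B.H4 _ _ _ _ h1) ?_ ?_ (Path.nil _))))
    · exact B.H1 _ _ _ _ _ _ h2
    · exact B.H1 _ _ _ _ _ _ h3
    · simpa [Equiv.Perm.mul_apply, Equiv.swap_apply_def, hpq, hqp, ← hs] using hu1 false (σ q)
    · simpa [Equiv.Perm.mul_apply, Equiv.swap_apply_def, hpq, hqp, ← hs] using hu2 false (σ q)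
    · simpa [Equiv.Perm.mul_apply, Equiv.swap_apply_def, hpq, hqp, ← hs] using hu1 true (σ p)
    · simpa [Equiv.Perm.mul_apply, Equiv.swap_apply_def, hpq, hqp, ← hs] using hu2 true (σ p)
    · simp only [Equiv.Perm.mul_apply, Equiv.swap_apply_def]
      simp only [hpq, hqp, Prod.mk.injEq, lift_apply, if_true, if_false, false_and, true_and,
        Bool.false_eq_true, Bool.true_eq_false, reduceCtorEq]
      exact B.H1 _ _ _ _ _ _ h2
    · simp only [Equiv.Perm.mul_apply, Equiv.swap_apply_def]
      simp only [hpq, hqp, Prod.mk.injEq, lift_apply, if_true, if_false, false_and, true_and,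
        Bool.false_eq_true, Bool.true_eq_false, reduceCtorEq]
      exact B.H1 _ _ _ _ _ _ h3
  · have hp : x p < t := by
      by_contra hcon
      have h5 : t < x p := lt_of_le_of_ne (not_lt.1 hcon) (Ne.symm (ht p))
      have h6 : t < x q := h5.trans h1
      exact hs (by simp [h5, h6])
    have hq : t < x q := by
      by_contra hcon
      have h6 : ¬ t < x p := not_lt.2 hp.le
      exact hs (by simp [hcon, h6])
    have hp' : decide (t < x p) = false := by simpa using hp.le
    have hq' : decide (t < x q) = true := by simpa using hq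
    have hsim : sim (fun p => decide (t < x p)) (p, q) =
      [((p, true), (q, false)), ((p, false), (p, true)), ((q, false), (q, true)),
     ((p, true), (q, false)), ((p, false), (p, true)), ((q, false), (q, true))] := by
      simp only [sim]
      rw [if_neg hs]
    rw [hsim, lift_diff _ _ _ _ hpq hp' hq']
    refine Path.cons (B.H4 _ _ _ _ h1) ?_ ?_ (Path.cons (B.H5 _) ?_ ?_
      (Path.cons (B.H5 _) ?_ ?_ (Path.cons (B.H4 _ _ _ _ h1) ?_ ?_
      (Path.cons (B.H5 _) ?_ ?_ (Path.cons (B.H5 _) ?_ ?_ (Path.nil _))))))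
    · exact B.H1 _ _ _ _ _ _ h2
    · exact B.H1 _ _ _ _ _ _ h3
    · simp only [Equiv.Perm.mul_apply, Equiv.swap_apply_def]
      simp only [hpq, hqp, Prod.mk.injEq, lift_apply, if_true, if_false, false_and, true_and,
        Bool.false_eq_true, Bool.true_eq_false, reduceCtorEq]
      exact B.H1 _ _ _ _ _ _ h2
    · simp only [Equiv.Perm.mul_apply, Equiv.swap_apply_def]
      simp only [hpq, hqp, Prod.mk.injEq, lift_apply, if_true, if_false, false_and, true_and,
        Bool.false_eq_true, Bool.true_eq_false, reduceCtorEq]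
      exact B.H1 _ _ _ _ _ _ h2
    · simp only [Equiv.Perm.mul_apply, Equiv.swap_apply_def]
      simp only [hpq, hqp, Prod.mk.injEq, lift_apply, if_true, if_false, false_and, true_and,
        Bool.false_eq_true, Bool.true_eq_false, reduceCtorEq]
      exact B.H1 _ _ _ _ _ _ h3
    · simp only [Equiv.Perm.mul_apply, Equiv.swap_apply_def]
      simp only [hpq, hqp, Prod.mk.injEq, lift_apply, if_true, if_false, false_and, true_and,
        Bool.false_eq_true, Bool.true_eq_false, reduceCtorEq]
      exact B.H1 _ _ _ _ _ _ h3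
    · simp only [Equiv.Perm.mul_apply, Equiv.swap_apply_def]
      simp only [hpq, hqp, Prod.mk.injEq, lift_apply, if_true, if_false, false_and, true_and,
        Bool.false_eq_true, Bool.true_eq_false, reduceCtorEq]
      exact B.H1 _ _ _ _ _ _ h2
    · simp only [Equiv.Perm.mul_apply, Equiv.swap_apply_def]
      simp only [hpq, hqp, Prod.mk.injEq, lift_apply, if_true, if_false, false_and, true_and,
        Bool.false_eq_true, Bool.true_eq_false, reduceCtorEq]
      exact B.H1 _ _ _ _ _ _ h3
    · simpa [Equiv.Perm.mul_apply, Equiv.swap_apply_def, hpq, hqp, hp', hq'] using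
        B.H2 p false (σ q) hp
    · simpa [Equiv.Perm.mul_apply, Equiv.swap_apply_def, hpq, hqp, hp', hq'] using
        B.H2 p true (σ q) hp
    · simpa [Equiv.Perm.mul_apply, Equiv.swap_apply_def, hpq, hqp, hp', hq'] using
        B.H3 q false (σ p) hq
    · simpa [Equiv.Perm.mul_apply, Equiv.swap_apply_def, hpq, hqp, hp', hq'] using
        B.H3 q true (σ p) hq

theorem lift_path {ι : Type} [DecidableEq ι] {x a b : ι → ℝ} {t : ℝ} {x' a' b' : ι × Bool → ℝ}
    (B : Blow x a b t x' a' b') (ht : ∀ p, x p ≠ t) {σ τ : Perm ι} {L : List (ι × ι)}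
    (h : Path x a b σ L τ) :
    Path x' a' b' (lift (fun p => decide (t < x p)) σ)
      (L.flatMap (sim (fun p => decide (t < x p))))
      (lift (fun p => decide (t < x p)) τ) := by
  induction h with
  | nil σ => exact Path.nil _
  | cons h1 h2 h3 _ ih =>
    rw [List.flatMap_cons]
    exact (sim_path B ht _ _ _ h1 h2 h3).append ih

end Pool.Agent.FlipSeq
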