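import Pool.Agent.FlipSeq.Stage

set_option autoImplicit false

namespace Pool.Agent.FlipSeq

open Equiv

/-- A path gives a sequence of states. -/
theorem Path.seq {ι : Type} [DecidableEq ι] {x a b : ι → ℝ} {σ τ : Perm ι} {L : List (ι × ι)}
    (h : Path x a b σ L τ) :
    ∃ s : ℕ → Perm ι, s 0 = σ ∧ ∀ t < L.length, ∃ p q : ι, x p < x q ∧
      a (s t q) * x p + b (s t q) < a (s t p) * x p + b (s t p) ∧
      a (s t q) * x q + b (s t q) < a (s t p) * x q + b (s t p) ∧
      s (t + 1) = s t * swap p q := by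
  induction h with
  | nil σ => exact ⟨fun _ => σ, rfl, by simp⟩
  | @cons σ τ p q L h1 h2 h3 _ ih =>
    obtain ⟨s, hs0, hs⟩ := ih
    refine ⟨fun t => Nat.casesOn t σ (fun t => s t), rfl, ?_⟩
    intro t ht
    cases t with
    | zero => exact ⟨p, q, h1, h2, h3, hs0⟩
    | succ t =>
      rw [List.length_cons] at ht
      exact hs t (by omega)

/-- crossing of two segments in the dual model -/
theorem segments_cross {xp xq sA bA sB bB : ℝ} (hA : 0 < sA) (hB : 0 < sB) (hx : xp < xq)
    (h1 : bB - sB * xp < bA - sA * xp) (h2 : bB - sB * xq < bA - sA * xq) :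
    (segment ℝ ((xp, 0) : ℝ × ℝ) (bA / sA, 1 / sA) ∩
      segment ℝ ((xq, 0) : ℝ × ℝ) (bB / sB, 1 / sB)).Nonempty := by
  set D := (bA - sA * xp) - (bB - sB * xq) with hD
  have hDA : sA * (xq - xp) < D := by
    rw [hD]
    linarith
  have hDB : sB * (xq - xp) < D := by
    rw [hD]
    linarith
  have hd : 0 < xq - xp := by linarith
  have hD0 : 0 < D := lt_trans (mul_pos hA hd) hDA
  refine ⟨(xp + (bA - sA * xp) * ((xq - xp) / D), (xq - xp) / D), ?_, ?_⟩
  · refine ⟨1 - sA * ((xq - xp) / D), sA * ((xq - xp) / D), ?_, ?_, by ring, ?_⟩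
    · have : sA * ((xq - xp) / D) ≤ 1 := by
        rw [← mul_div_assoc, div_le_one hD0]
        exact hDA.le
      linarith
    · positivity
    · ext
      · simp only [Prod.smul_mk, smul_eq_mul, Prod.mk_add_mk]
        field_simp
        ring
      · simp only [Prod.smul_mk, smul_eq_mul, Prod.mk_add_mk]
        field_simp
        ring
  · refine ⟨1 - sB * ((xq - xp) / D), sB * ((xq - xp) / D), ?_, ?_, by ring, ?_⟩
    · have : sB * ((xq - xp) / D) ≤ 1 := by
        rw [← mul_div_assoc, div_le_one hD0]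
        exact hDB.le
      linarith
    · positivity
    · ext
      · simp only [Prod.smul_mk, smul_eq_mul, Prod.mk_add_mk]
        have h5 : (xq - xp) = ((bA - sA * xp) - (bB - sB * xq)) * ((xq - xp) / D) := by
          rw [← hD]
          field_simp
        have h6 : sB * ((xq - xp) / D) * (bB / sB) = bB * ((xq - xp) / D) := by
          field_simp
        rw [h6]
        linarith
      · simp only [Prod.smul_mk, smul_eq_mul, Prod.mk_add_mk]
        field_simp
        ring

/-- collinear points have vanishing cross product -/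
theorem cross_zero {p q r : ℝ × ℝ} (h : Collinear ℝ ({p, q, r} : Set (ℝ × ℝ))) :
    (q.1 - p.1) * (r.2 - p.2) = (r.1 - p.1) * (q.2 - p.2) := by
  rw [collinear_iff_of_mem (p₀ := p) (by simp)] at h
  obtain ⟨v, hv⟩ := h
  obtain ⟨s, hs⟩ := hv q (by simp)
  obtain ⟨t, ht⟩ := hv r (by simp)
  have h1 : q.1 = s * v.1 + p.1 := by
    rw [hs]
    simp
  have h2 : q.2 = s * v.2 + p.2 := by
    rw [hs]
    simp
  have h3 : r.1 = t * v.1 + p.1 := by
    rw [ht]
    simp
  have h4 : r.2 = t * v.2 + p.2 := by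
    rw [ht]
    simp
  rw [h1, h2, h3, h4]
  ring

theorem not_collinear_RRB {x1 x2 u h : ℝ} (hx : x1 ≠ x2) (hh : 0 < h) :
    ¬ Collinear ℝ ({((x1, 0) : ℝ × ℝ), (x2, 0), (u, h)} : Set (ℝ × ℝ)) := by
  intro hc
  have := cross_zero hc
  simp only [sub_zero, sub_self, mul_zero] at this
  rcases mul_eq_zero.1 this with h1 | h1
  · exact hx (by linarith)
  · exact hh.ne' h1

theorem not_collinear_RBB {x s b s' b' : ℝ} (hs : 0 < s) (hs' : 0 < s')
    (h : b - s * x ≠ b' - s' * x) :
    ¬ Collinear ℝ ({((x, 0) : ℝ × ℝ), (b / s, 1 / s), (b' / s', 1 / s')} : Set (ℝ × ℝ)) := by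
  intro hc
  have := cross_zero hc
  simp only [sub_zero] at this
  field_simp at this
  apply h
  linarith

theorem final (C : ℝ) : ∃ (n : ℕ) (R B : Fin n → ℝ × ℝ),
      Function.Injective R ∧ Function.Injective B ∧
      Disjoint (Set.range R) (Set.range B) ∧
      (∀ p ∈ Set.range R ∪ Set.range B, ∀ q ∈ Set.range R ∪ Set.range B,
        ∀ r ∈ Set.range R ∪ Set.range B, p ≠ q → q ≠ r → p ≠ r →
        Collinear ℝ ({p, q, r} : Set (ℝ × ℝ)) →
        (({p, q, r} : Set (ℝ × ℝ)) ⊆ Set.range R ∨ ({p, q, r} : Set (ℝ × ℝ)) ⊆ Set.range B)) ∧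
      ∃ (s : ℕ → Equiv.Perm (Fin n)) (k : ℕ),
        (∀ t < k, ∃ i j : Fin n, i ≠ j ∧
          (segment ℝ (R i) (B ((s t) i)) ∩ segment ℝ (R j) (B ((s t) j))).Nonempty ∧
          s (t + 1) = s t * Equiv.swap i j) ∧
        C * (n : ℝ) ^ 2 < (k : ℝ) := by
  obtain ⟨N, hN⟩ := pow_unbounded_of_one_lt (4 * C) (by norm_num : (1 : ℝ) < 3 / 2)
  obtain ⟨n, T, hn, ⟨ι, _, _, x, a, b, σ, τ, L, hgood, hcard, -, hpath, hT, -⟩, hnT⟩ := conf_all N
  obtain ⟨s, -, hs⟩ := hpath.seq
  set e : ι ≃ Fin n := Fintype.equivFinOfCardEq hcard with he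
  set K : ℝ := ∑ l, |a l| + 1 with hK
  have hpos : ∀ l, 0 < K - a l := by
    intro l
    have h1 : a l ≤ |a l| := le_abs_self _
    have h2 : |a l| ≤ ∑ l, |a l| := Finset.single_le_sum (f := fun l => |a l|)
      (fun _ _ => abs_nonneg _) (Finset.mem_univ l)
    rw [hK]
    linarith
  have hgen : ∀ p l l', l ≠ l' → b l - (K - a l) * x p ≠ b l' - (K - a l') * x p := by
    intro p l l' hl h
    apply hgood.2 p l l' hl
    linarith
  refine ⟨n, fun i => (x (e.symm i), 0),
    fun j => (b (e.symm j) / (K - a (e.symm j)), 1 / (K - a (e.symm j))), ?_, ?_, ?_, ?_,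
    fun t => (e.symm.trans (s t)).trans e, T, ?_, ?_⟩
  · intro i j h
    simp only [Prod.mk.injEq, and_true] at h
    exact e.symm.injective (hgood.1 h)
  · intro i j h
    simp only [Prod.mk.injEq] at h
    by_contra hne
    have hne' : e.symm i ≠ e.symm j := fun h => hne (e.symm.injective h)
    have h1 := hpos (e.symm i)
    have h2 := hpos (e.symm j)
    have h3 : K - a (e.symm i) = K - a (e.symm j) := by
      have := h.2
      field_simp at this
      linarith
    have h4 : b (e.symm i) = b (e.symm j) := by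
      have := h.1
      rw [h3] at this
      field_simp at this
      linarith
    apply hgen (e.symm i) _ _ hne'
    rw [h3, h4]
  · rw [Set.disjoint_left]
    rintro _ ⟨i, rfl⟩ ⟨j, h⟩
    simp only [Prod.mk.injEq] at h
    have h1 := hpos (e.symm j)
    have h2 : 0 < 1 / (K - a (e.symm j)) := by positivity
    exact h2.ne' h.2
  · have RRB : ∀ (i j l : Fin n), i ≠ j → ¬ Collinear ℝ ({((x (e.symm i), 0) : ℝ × ℝ),
        (x (e.symm j), 0), (b (e.symm l) / (K - a (e.symm l)), 1 / (K - a (e.symm l)))} :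
          Set (ℝ × ℝ)) := by
      intro i j l hij
      have h1 := hpos (e.symm l)
      apply not_collinear_RRB _ (by positivity)
      intro h
      exact hij (e.symm.injective (hgood.1 h))
    have RBB : ∀ (i l m : Fin n), l ≠ m → ¬ Collinear ℝ ({((x (e.symm i), 0) : ℝ × ℝ),
        (b (e.symm l) / (K - a (e.symm l)), 1 / (K - a (e.symm l))),
        (b (e.symm m) / (K - a (e.symm m)), 1 / (K - a (e.symm m)))} :
          Set (ℝ × ℝ)) := by
      intro i l m hlm
      apply not_collinear_RBB (hpos _) (hpos _)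
      exact hgen _ _ _ (fun h => hlm (e.symm.injective h))
    have perm1 : ∀ {p q r : ℝ × ℝ}, Collinear ℝ ({p, q, r} : Set (ℝ × ℝ)) →
        Collinear ℝ ({q, p, r} : Set (ℝ × ℝ)) := by
      intro p q r h
      rwa [Set.insert_comm]
    have perm2 : ∀ {p q r : ℝ × ℝ}, Collinear ℝ ({p, q, r} : Set (ℝ × ℝ)) →
        Collinear ℝ ({p, r, q} : Set (ℝ × ℝ)) := by
      intro p q r h
      rwa [Set.pair_comm r q]
    rintro p (⟨i, rfl⟩ | ⟨i, rfl⟩) q (⟨j, rfl⟩ | ⟨j, rfl⟩) r (⟨l, rfl⟩ | ⟨l, rfl⟩) hpq hqr hpr hc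
    · left
      rintro _ (rfl | rfl | rfl)
      · exact ⟨i, rfl⟩
      · exact ⟨j, rfl⟩
      · exact ⟨l, rfl⟩
    · exact absurd hc (RRB i j l (fun h => hpq (by rw [h])))
    · exact absurd (perm2 hc) (RRB i l j (fun h => hpr (by rw [h])))
    · exact absurd hc (RBB i j l (fun h => hqr (by rw [h])))
    · exact absurd (perm2 (perm1 hc)) (RRB j l i (fun h => hqr (by rw [h])))
    · exact absurd (perm1 hc) (RBB j i l (fun h => hpr (by rw [h])))
    · exact absurd (perm1 (perm2 hc)) (RBB l i j (fun h => hpq (by rw [h])))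
    · right
      rintro _ (rfl | rfl | rfl)
      · exact ⟨i, rfl⟩
      · exact ⟨j, rfl⟩
      · exact ⟨l, rfl⟩
  · intro t ht
    rw [← hT] at ht
    obtain ⟨p, q, h1, h2, h3, h4⟩ := hs t ht
    refine ⟨e p, e q, ?_, ?_, ?_⟩
    · intro h
      have := e.injective h
      subst this
      exact lt_irrefl _ h1
    · simp only [Equiv.trans_apply, Equiv.symm_apply_apply]
      apply segments_cross (hpos _) (hpos _) h1
      · linarith
      · linarith
    · show (e.symm.trans (s (t + 1))).trans e = (e.symm.trans (s t)).trans e * swap (e p) (e q)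
      rw [h4]
      ext i
      simp only [Equiv.trans_apply, Equiv.Perm.mul_apply, Equiv.swap_apply_def]
      congr 2
      by_cases hi : i = e p
      · subst hi
        simp
      · by_cases hi' : i = e q
        · have hqp : q ≠ p := fun h => hi (by rw [hi', h])
          subst hi'
          simp [hqp]
        · rw [if_neg hi, if_neg hi', if_neg, if_neg]
          · intro h
            exact hi' (by rw [← h]; simp)
          · intro h
            exact hi (by rw [← h]; simp)
  · have h1 : (0 : ℝ) < (n : ℝ) ^ 2 := by positivity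
    nlinarith [mul_lt_mul_of_pos_right hN h1]

end Pool.Agent.FlipSeq
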