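import Pool.Agent.FlipSeq.Geom

set_option autoImplicit false

namespace Pool.Agent.FlipSeq

open Equiv Filter Topology

/-- Thresholds crossed by every flip, at most as many as there are positions. -/
theorem exists_thresholds' {ι : Type} [Fintype ι] [Nonempty ι] (x : ι → ℝ) (L : List (ι × ι))
    (hL : ∀ f ∈ L, x f.1 < x f.2) :
    ∃ G : Finset ℝ, G.Nonempty ∧ G.card ≤ Fintype.card ι ∧ (∀ p, ∀ g ∈ G, x p ≠ g) ∧
      (L.map (mac x G)).sum = L.length := by
  have e1 : ∀ᶠ η in 𝓝[>] (0 : ℝ), ∀ (p q : ι), x p < x q → x p + η < x q := by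
    simp only [eventually_all]
    intro p q h
    apply ev_lt (by fun_prop) (by fun_prop)
    simpa using h
  have e0 : ∀ᶠ η in 𝓝[>] (0 : ℝ), 0 < η := eventually_mem_nhdsWithin
  obtain ⟨η, h0, h1⟩ := (e0.and e1).exists
  classical
  refine ⟨Finset.univ.image (fun p => x p + η), Finset.univ_nonempty.image _,
    Finset.card_image_le.trans (by simp), ?_, ?_⟩
  · intro p g hg he
    obtain ⟨q, _, rfl⟩ := Finset.mem_image.1 hg
    have h2 : x q < x p := by linarith
    have h3 := h1 q p h2
    linarith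
  · clear e0 e1
    induction L with
    | nil => simp
    | cons f L ih =>
      rw [List.map_cons, List.sum_cons, ih (fun f hf => hL f (List.mem_cons_of_mem _ hf)),
        List.length_cons]
      have h2 := hL f List.mem_cons_self
      have : mac x (Finset.univ.image (fun p => x p + η)) f = 1 := by
        unfold mac
        rw [if_pos]
        exact ⟨x f.1 + η, Finset.mem_image_of_mem _ (Finset.mem_univ _), by linarith, h1 _ _ h2⟩
      rw [this, add_comm]

theorem Conf.forget {G : Finset ℝ} {n T M : ℕ} (h : Conf G n T M) : Conf ∅ n T 0 := by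
  obtain ⟨ι, _, _, x, a, b, σ, τ, L, hgood, hcard, -, hpath, hT, -⟩ := h
  refine ⟨ι, inferInstance, inferInstance, x, a, b, σ, τ, L, hgood, hcard, by simp, hpath, hT, ?_⟩
  clear hT hpath
  induction L with
  | nil => rfl
  | cons f L ih =>
    rw [List.map_cons, List.sum_cons, ih]
    simp [mac]

theorem Conf.thresholds {n T : ℕ} (hn : 0 < n) (h : Conf ∅ n T 0) :
    ∃ G : Finset ℝ, G.Nonempty ∧ G.card ≤ n ∧ Conf G n T T := by
  obtain ⟨ι, _, _, x, a, b, σ, τ, L, hgood, hcard, -, hpath, hT, -⟩ := h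
  have : Nonempty ι := by
    rw [← Fintype.card_pos_iff, hcard]
    exact hn
  obtain ⟨G, hG0, hGc, hG1, hG2⟩ := exists_thresholds' x L hpath.lt
  exact ⟨G, hG0, by rwa [hcard] at hGc, ι, inferInstance, inferInstance, x, a, b, σ, τ, L, hgood,
    hcard, hG1, hpath, hT, by rw [hG2, hT]⟩

/-- `j` blow-ups multiply `T` by at least `4 ^ j`. -/
theorem Conf.double {n T : ℕ} (hn : 0 < n) (h : Conf ∅ n T 0) (j : ℕ) :
    ∃ T', Conf ∅ (2 ^ j * n) T' 0 ∧ 4 ^ j * T ≤ T' := by
  obtain ⟨G, hGn, -, hc⟩ := h.thresholds hn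
  obtain ⟨T', M', hc', h1, h2⟩ := hc.iter hGn j
  refine ⟨T', hc'.forget, ?_⟩
  have hm1 : (1 : ℝ) ≤ G.card := by exact_mod_cast hGn.card_pos
  have h3 : (4 - 2 / (G.card : ℝ)) ^ j ≤ 4 ^ j := by
    apply pow_le_pow_left₀
    · have : 2 / (G.card : ℝ) ≤ 2 := by
        rw [div_le_iff₀ (by linarith)]
        linarith
      linarith
    · have : 0 < 2 / (G.card : ℝ) := by positivity
      linarith
  have h4 : (M' : ℝ) ≤ 4 ^ j * T := h2.trans (mul_le_mul_of_nonneg_right h3 (Nat.cast_nonneg _))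
  have h5 : M' ≤ 4 ^ j * T := by exact_mod_cast h4
  have h6 : 4 ^ j * (T + T) = 4 ^ j * T + 4 ^ j * T := by ring
  omega

/-- One stage, with an explicit number of blow-ups. -/
theorem Conf.stage' {n T : ℕ} (hn : 0 < n) (h : Conf ∅ n T 0) :
    ∃ T', Conf ∅ (4 ^ n * n) T' 0 ∧ 4 ^ (2 * n) * (3 * T) ≤ 2 * T' := by
  obtain ⟨G, hGn, hGc, hc⟩ := h.thresholds hn
  obtain ⟨T', M', hc', h1, h2⟩ := hc.iter hGn (2 * n)
  refine ⟨T', ?_, ?_⟩
  · have := hc'.forget
    rwa [pow_mul, show (2 : ℕ) ^ 2 = 4 by norm_num] at this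
  · set m : ℝ := (G.card : ℝ) with hm
    have hm1 : (1 : ℝ) ≤ m := by
      rw [hm]
      exact_mod_cast hGn.card_pos
    have hm0 : 0 < m := by linarith
    have hmn : m ≤ n := by
      rw [hm]
      exact_mod_cast hGc
    have hr0 : 0 ≤ 1 - 1 / (2 * m) := by
      have : 1 / (2 * m) ≤ 1 := by
        rw [div_le_iff₀ (by positivity)]
        linarith
      linarith
    have hpow : (1 - 1 / (2 * m)) ^ (2 * n) ≤ 1 / 2 := by
      have h3 : 1 - 1 / (2 * m) ≤ Real.exp (-(1 / (2 * m))) := by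
        have := Real.add_one_le_exp (-(1 / (2 * m)))
        linarith
      have h4 : (1 - 1 / (2 * m)) ^ (2 * n) ≤ Real.exp (-(1 / (2 * m))) ^ (2 * n) :=
        pow_le_pow_left₀ hr0 h3 _
      have h5 : Real.exp (-(1 / (2 * m))) ^ (2 * n) = Real.exp (-((n : ℝ) / m)) := by
        rw [← Real.exp_nat_mul]
        congr 1
        push_cast
        field_simp
      have h6 : (1 : ℝ) ≤ (n : ℝ) / m := by
        rw [le_div_iff₀ hm0]
        linarith
      have h7 : Real.exp (-((n : ℝ) / m)) ≤ Real.exp (-1) := Real.exp_le_exp.2 (by linarith)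
      have h8 : Real.exp (-1) ≤ 1 / 2 := by
        rw [Real.exp_neg]
        have := Real.add_one_le_exp 1
        rw [one_div]
        apply inv_anti₀ (by norm_num)
        linarith
      linarith
    have h4 : (4 - 2 / m) ^ (2 * n) = 4 ^ (2 * n) * (1 - 1 / (2 * m)) ^ (2 * n) := by
      rw [← mul_pow]
      congr 1
      field_simp
      ring
    rw [h4] at h2
    have h5 : (2 : ℝ) * M' ≤ 4 ^ (2 * n) * T := by
      have h6 : (4 : ℝ) ^ (2 * n) * (1 - 1 / (2 * m)) ^ (2 * n) * T ≤
          4 ^ (2 * n) * (1 / 2) * T := by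
        apply mul_le_mul_of_nonneg_right _ (Nat.cast_nonneg _)
        exact mul_le_mul_of_nonneg_left hpow (by positivity)
      linarith
    have h6 : 2 * M' ≤ 4 ^ (2 * n) * T := by exact_mod_cast h5
    have h7 : 4 ^ (2 * n) * (T + T) = 2 * (4 ^ (2 * n) * T) := by ring
    have h8 : 4 ^ (2 * n) * (3 * T) = 3 * (4 ^ (2 * n) * T) := by ring
    omega

/-- One more position and one more line. -/
theorem Conf.pad {n T : ℕ} (h : Conf ∅ n T 0) : Conf ∅ (n + 1) T 0 := by
  obtain ⟨ι, _, _, x, a, b, σ, τ, L, hgood, hcard, -, hpath, hT, -⟩ := h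
  -- the new position
  obtain ⟨x0, hx0⟩ : ∃ x0 : ℝ, ∀ p, x p < x0 := by
    refine ⟨∑ p, |x p| + 1, fun p => ?_⟩
    have h1 : x p ≤ |x p| := le_abs_self _
    have h2 : |x p| ≤ ∑ p, |x p| := Finset.single_le_sum (f := fun p => |x p|)
      (fun _ _ => abs_nonneg _) (Finset.mem_univ p)
    linarith
  -- shift x0 so that no two lines meet there
  obtain ⟨x1, hx1, hx1'⟩ : ∃ x1 : ℝ, (∀ p, x p < x1) ∧
      ∀ l l', l ≠ l' → a l * x1 + b l ≠ a l' * x1 + b l' := by
    set F : Set ℝ := ⋃ l : ι, ⋃ l' : ι, {z | l ≠ l' ∧ a l * z + b l = a l' * z + b l'} with hF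
    have hfin : F.Finite := by
      rw [hF]
      refine Set.finite_iUnion fun l => Set.finite_iUnion fun l' => ?_
      by_cases hl : l = l'
      · refine Set.Finite.subset Set.finite_empty ?_
        rintro z ⟨hz, _⟩
        exact absurd hl hz
      · rcases isEmpty_or_nonempty ι with hι | ⟨⟨p⟩⟩
        · exact hι.elim l
        · refine Set.Finite.subset (Set.finite_singleton ((b l' - b l) / (a l - a l'))) ?_
          rintro z ⟨_, hz⟩
          have h1 : a l - a l' ≠ 0 := by
            intro h0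
            have h2 : a l = a l' := by linarith
            rw [h2] at hz
            apply hgood.2 p l l' hl
            rw [h2]
            linarith
          rw [Set.mem_singleton_iff, eq_div_iff h1]
          linarith
    obtain ⟨x1, hx1, hx1'⟩ : ∃ x1 ∈ Set.Ioi x0, x1 ∉ F :=
      (Set.Ioi_infinite x0).exists_notMem_finite hfin
    refine ⟨x1, fun p => (hx0 p).trans hx1, ?_⟩
    intro l l' hl he
    apply hx1'
    rw [hF]
    exact Set.mem_iUnion.2 ⟨l, Set.mem_iUnion.2 ⟨l', hl, he⟩⟩
  -- the new line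
  obtain ⟨b0, hb0, hb0'⟩ : ∃ b0 : ℝ, (∀ p l, a l * x p + b l < b0) ∧
      ∀ l, a l * x1 + b l < b0 := by
    refine ⟨∑ l, (∑ p, |a l * x p + b l| + |a l * x1 + b l|) + 1, fun p l => ?_, fun l => ?_⟩
    · have h1 : a l * x p + b l ≤ |a l * x p + b l| := le_abs_self _
      have h2 : |a l * x p + b l| ≤ ∑ p, |a l * x p + b l| :=
        Finset.single_le_sum (f := fun p => |a l * x p + b l|)
          (fun _ _ => abs_nonneg _) (Finset.mem_univ p)
      have h3 : (∑ p, |a l * x p + b l| + |a l * x1 + b l|) ≤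
          ∑ l, (∑ p, |a l * x p + b l| + |a l * x1 + b l|) :=
        Finset.single_le_sum (f := fun l => (∑ p, |a l * x p + b l| + |a l * x1 + b l|))
          (fun l _ => by positivity) (Finset.mem_univ l)
      have h4 : 0 ≤ |a l * x1 + b l| := abs_nonneg _
      linarith
    · have h1 : a l * x1 + b l ≤ |a l * x1 + b l| := le_abs_self _
      have h2 : 0 ≤ ∑ p, |a l * x p + b l| := Finset.sum_nonneg fun _ _ => abs_nonneg _
      have h3 : (∑ p, |a l * x p + b l| + |a l * x1 + b l|) ≤
          ∑ l, (∑ p, |a l * x p + b l| + |a l * x1 + b l|) :=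
        Finset.single_le_sum (f := fun l => (∑ p, |a l * x p + b l| + |a l * x1 + b l|))
          (fun l _ => by positivity) (Finset.mem_univ l)
      linarith
  set x' : Option ι → ℝ := fun p => p.elim x1 x with hx'
  set a' : Option ι → ℝ := fun p => p.elim 0 a with ha'
  set b' : Option ι → ℝ := fun p => p.elim b0 b with hb'
  have hpath' : Path x' a' b' (optionCongr σ) (L.map fun f => (some f.1, some f.2))
      (optionCongr τ) := by
    clear hT
    induction hpath with
    | nil σ => exact Path.nil _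
    | @cons σ τ p q L h1 h2 h3 _ ih =>
      rw [List.map_cons]
      refine Path.cons h1 (by simpa [ha', hb', hx'] using h2) (by simpa [ha', hb', hx'] using h3) ?_
      have : optionCongr σ * swap (some p) (some q) = optionCongr (σ * swap p q) := by
        ext1 r
        rcases r with _ | r
        · rw [Perm.mul_apply, swap_apply_of_ne_of_ne (by simp) (by simp)]
          rfl
        · rw [Perm.mul_apply]
          by_cases hr : r = p
          · subst hr
            simp
          · by_cases hr' : r = q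
            · subst hr'
              simp
            · rw [swap_apply_of_ne_of_ne (by simpa using hr) (by simpa using hr')]
              simp [swap_apply_of_ne_of_ne hr hr']
      rw [this]
      exact ih
  refine ⟨Option ι, inferInstance, inferInstance, x', a', b', _, _, _, ⟨?_, ?_⟩, ?_, by simp,
    hpath', ?_, ?_⟩
  · rintro (_ | p) (_ | q) h
    · rfl
    · exact absurd h (hx1 q).ne'
    · exact absurd h (hx1 p).ne
    · exact congrArg some (hgood.1 h)
  · rintro (_ | p) (_ | l) (_ | l') hl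
    · exact absurd rfl hl
    · have := hb0' l'
      simp only [hx', ha', hb', Option.elim]
      intro h
      linarith
    · have := hb0' l
      simp only [hx', ha', hb', Option.elim]
      intro h
      linarith
    · exact hx1' l l' (fun h => hl (congrArg some h))
    · exact absurd rfl hl
    · have := hb0 p l'
      simp only [hx', ha', hb', Option.elim]
      intro h
      linarith
    · have := hb0 p l
      simp only [hx', ha', hb', Option.elim]
      intro h
      linarith
    · exact hgood.2 p l l' (fun h => hl (congrArg some h))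
  · rw [Fintype.card_option, hcard]
  · rw [List.length_map, hT]
  · clear hT hpath hpath'
    induction L with
    | nil => rfl
    | cons f L ih =>
      rw [List.map_cons, List.map_cons, List.sum_cons, ih]
      simp [mac]

theorem Conf.pad' {n T : ℕ} (h : Conf ∅ n T 0) {m : ℕ} (hm : n ≤ m) : Conf ∅ m T 0 := by
  induction m, hm using Nat.le_induction with
  | base => exact h
  | succ m _ ih => exact ih.pad

/-- the tower sequence `2, 4^2 * 2 = 32, 4^32 * 32, …` -/
def tow : ℕ → ℕ
  | 0 => 2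
  | s + 1 => 4 ^ tow s * tow s

theorem tow_pos (s : ℕ) : 0 < tow s := by
  induction s with
  | zero => simp [tow]
  | succ s ih =>
    rw [tow]
    positivity

theorem conf_tow (s : ℕ) : ∃ T, Conf ∅ (tow s) T 0 ∧ 3 ^ s * tow s ^ 2 ≤ 2 ^ s * (4 * T) := by
  induction s with
  | zero => exact ⟨1, conf_base, by norm_num [tow]⟩
  | succ s ih =>
    obtain ⟨T, hc, h⟩ := ih
    obtain ⟨T', hc', h'⟩ := hc.stage' (tow_pos s)
    refine ⟨T', hc', ?_⟩
    have e1 : tow (s + 1) ^ 2 = 4 ^ (2 * tow s) * tow s ^ 2 := by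
      rw [tow, mul_pow, ← pow_mul, mul_comm (tow s) 2]
    rw [e1]
    calc 3 ^ (s + 1) * (4 ^ (2 * tow s) * tow s ^ 2)
        = 3 * 4 ^ (2 * tow s) * (3 ^ s * tow s ^ 2) := by ring
      _ ≤ 3 * 4 ^ (2 * tow s) * (2 ^ s * (4 * T)) := Nat.mul_le_mul_left _ h
      _ = 4 * 2 ^ s * (4 ^ (2 * tow s) * (3 * T)) := by ring
      _ ≤ 4 * 2 ^ s * (2 * T') := Nat.mul_le_mul_left _ h'
      _ = 2 ^ (s + 1) * (4 * T') := by ring

theorem conf_all' (s n : ℕ) (hn : tow s ≤ n) :
    ∃ T, Conf ∅ n T 0 ∧ 3 ^ s * n ^ 2 ≤ 2 ^ s * (16 * T) := by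
  obtain ⟨T, hc, h⟩ := conf_tow s
  have hpos := tow_pos s
  obtain ⟨j, hj1, hj2⟩ : ∃ j, 2 ^ j * tow s ≤ n ∧ n < 2 ^ (j + 1) * tow s := by
    have h0 : n / tow s ≠ 0 := by
      have := Nat.div_pos hn hpos
      omega
    refine ⟨Nat.log 2 (n / tow s), ?_, ?_⟩
    · have := Nat.pow_log_le_self 2 h0
      exact (Nat.mul_le_mul_right _ this).trans (Nat.div_mul_le_self n (tow s))
    · have := Nat.lt_pow_succ_log_self (by norm_num : 1 < 2) (n / tow s)
      exact (Nat.div_lt_iff_lt_mul hpos).1 this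
  obtain ⟨T', hc', h'⟩ := hc.double hpos j
  refine ⟨T', hc'.pad' hj1, ?_⟩
  have h3 : n ^ 2 ≤ (2 ^ (j + 1) * tow s) ^ 2 := Nat.pow_le_pow_left hj2.le 2
  have e1 : (2 ^ (j + 1) * tow s) ^ 2 = 4 * 4 ^ j * tow s ^ 2 := by
    rw [mul_pow, ← pow_mul, mul_comm (j + 1) 2, pow_mul]
    ring
  rw [e1] at h3
  calc 3 ^ s * n ^ 2 ≤ 3 ^ s * (4 * 4 ^ j * tow s ^ 2) := Nat.mul_le_mul_left _ h3
    _ = 4 * 4 ^ j * (3 ^ s * tow s ^ 2) := by ring
    _ ≤ 4 * 4 ^ j * (2 ^ s * (4 * T)) := Nat.mul_le_mul_left _ h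
    _ = 2 ^ s * 16 * (4 ^ j * T) := by ring
    _ ≤ 2 ^ s * 16 * T' := Nat.mul_le_mul_left _ h'
    _ = 2 ^ s * (16 * T') := by ring

end Pool.Agent.FlipSeq
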