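import Pool.Agent.FlipSeq.Basic

set_option autoImplicit false
set_option linter.unusedSimpArgs false

namespace Pool.Agent.FlipSeq

open Equiv Filter Topology

/-- General position. -/
def Good {ι : Type} (x a b : ι → ℝ) : Prop :=
  Function.Injective x ∧ ∀ p l l', l ≠ l' → a l * x p + b l ≠ a l' * x p + b l'

theorem Blow.good {ι : Type} {x a b : ι → ℝ} {t : ℝ} {x' a' b' : ι × Bool → ℝ}
    (B : Blow x a b t x' a' b') (ht : ∀ p, x p ≠ t) (h : Good x a b) : Good x' a' b' := by
  constructor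
  · rintro ⟨p, c⟩ ⟨q, d⟩ he
    rcases lt_trichotomy (x p) (x q) with h1 | h1 | h1
    · exact absurd he (B.H4 p q c d h1).ne
    · have := h.1 h1
      subst this
      have h5 := B.H5 p
      cases c <;> cases d
      · rfl
      · exact absurd he h5.ne
      · exact absurd he h5.ne'
      · rfl
    · exact absurd he (B.H4 q p d c h1).ne'
  · rintro ⟨p, c⟩ ⟨l, d⟩ ⟨l', d'⟩ hne
    by_cases hl : l = l'
    · subst hl
      rcases lt_or_gt_of_ne (ht p) with h1 | h1
      · have h5 := B.H2 p c l h1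
        cases d <;> cases d'
        · exact absurd rfl hne
        · exact h5.ne
        · exact h5.ne'
        · exact absurd rfl hne
      · have h5 := B.H3 p c l h1
        cases d <;> cases d'
        · exact absurd rfl hne
        · exact h5.ne'
        · exact h5.ne
        · exact absurd rfl hne
    · rcases lt_or_gt_of_ne (h.2 p l l' hl) with h1 | h1
      · exact (B.H1 p c l' d' l d h1).ne
      · exact (B.H1 p c l d l' d' h1).ne'

theorem ev_lt {f g : ℝ → ℝ} (hf : Continuous f) (hg : Continuous g) (h : f 0 < g 0) :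
    ∀ᶠ η in 𝓝[>] (0 : ℝ), f η < g η :=
  ((hf.tendsto 0).eventually_lt (hg.tendsto 0) h).filter_mono nhdsWithin_le_nhds

/-- sign of a Boolean -/
def sg (c : Bool) : ℝ := if c then 1 else -1

theorem exists_blow {ι : Type} [Finite ι] (x a b : ι → ℝ) (t : ℝ)
    (G : Finset ℝ) :
    ∃ x' a' b' : ι × Bool → ℝ, Blow x a b t x' a' b' ∧
      (∀ p c, ∀ g ∈ G, x p < g → x' (p, c) < g) ∧ (∀ p c, ∀ g ∈ G, g < x p → g < x' (p, c)) := by
  have e0 : ∀ᶠ η in 𝓝[>] (0 : ℝ), 0 < η := eventually_mem_nhdsWithin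
  have e1 : ∀ᶠ η in 𝓝[>] (0 : ℝ), ∀ (p : ι) (c : Bool) (l : ι) (d : Bool) (l' : ι) (d' : Bool),
      a l' * x p + b l' < a l * x p + b l →
      (a l' - sg d' * η) * (x p + sg c * η) + (b l' + sg d' * η * t) <
        (a l - sg d * η) * (x p + sg c * η) + (b l + sg d * η * t) := by
    simp only [eventually_all]
    intro p c l d l' d' h
    apply ev_lt (by fun_prop) (by fun_prop)
    simpa using h
  have e2 : ∀ᶠ η in 𝓝[>] (0 : ℝ), ∀ (p : ι) (c : Bool), x p < t → x p + sg c * η < t := by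
    simp only [eventually_all]
    intro p c h
    apply ev_lt (by fun_prop) (by fun_prop)
    simpa using h
  have e3 : ∀ᶠ η in 𝓝[>] (0 : ℝ), ∀ (p : ι) (c : Bool), t < x p → t < x p + sg c * η := by
    simp only [eventually_all]
    intro p c h
    apply ev_lt (by fun_prop) (by fun_prop)
    simpa using h
  have e4 : ∀ᶠ η in 𝓝[>] (0 : ℝ), ∀ (p q : ι) (c d : Bool), x p < x q →
      x p + sg c * η < x q + sg d * η := by
    simp only [eventually_all]
    intro p q c d h
    apply ev_lt (by fun_prop) (by fun_prop)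
    simpa using h
  have e6 : ∀ᶠ η in 𝓝[>] (0 : ℝ), ∀ (p : ι) (c : Bool) (g : G), x p < g.1 →
      x p + sg c * η < g.1 := by
    simp only [eventually_all]
    intro p c g h
    apply ev_lt (by fun_prop) (by fun_prop)
    simpa using h
  have e7 : ∀ᶠ η in 𝓝[>] (0 : ℝ), ∀ (p : ι) (c : Bool) (g : G), g.1 < x p →
      g.1 < x p + sg c * η := by
    simp only [eventually_all]
    intro p c g h
    apply ev_lt (by fun_prop) (by fun_prop)
    simpa using h
  obtain ⟨η, ⟨⟨⟨⟨⟨⟨h0, h1⟩, h2⟩, h3⟩, h4⟩, h6⟩, h7⟩⟩ :=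
    ((((((e0.and e1).and e2).and e3).and e4).and e6).and e7).exists
  refine ⟨fun u => x u.1 + sg u.2 * η, fun u => a u.1 - sg u.2 * η,
    fun u => b u.1 + sg u.2 * η * t, ⟨?_, ?_, ?_, ?_, ?_⟩, ?_, ?_⟩
  · intro p c l d l' d' h
    exact h1 p c l d l' d' h
  · intro p c l h
    have := h2 p c h
    have h8 : 0 < η * (t - (x p + sg c * η)) := mul_pos h0 (by linarith)
    simp only [sg, if_true, Bool.false_eq_true, if_false] at *
    nlinarith
  · intro p c l h
    have := h3 p c h
    have h8 : 0 < η * ((x p + sg c * η) - t) := mul_pos h0 (by linarith)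
    simp only [sg, if_true, Bool.false_eq_true, if_false] at *
    nlinarith
  · intro p q c d h
    exact h4 p q c d h
  · intro p
    simp only [sg, if_true, Bool.false_eq_true, if_false]
    linarith
  · intro p c g hg h
    exact h6 p c ⟨g, hg⟩ h
  · intro p c g hg h
    exact h7 p c ⟨g, hg⟩ h

theorem Path.lt {ι : Type} [DecidableEq ι] {x a b : ι → ℝ} {σ τ : Perm ι} {L : List (ι × ι)}
    (h : Path x a b σ L τ) : ∀ f ∈ L, x f.1 < x f.2 := by
  induction h with
  | nil σ => simp
  | cons h1 h2 h3 _ ih =>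
    intro f hf
    rcases List.mem_cons.1 hf with rfl | hf
    · exact h1
    · exact ih f hf

open Classical in
/-- does the flip cross the threshold `g`? -/
noncomputable def cross {ι : Type} (x : ι → ℝ) (g : ℝ) (f : ι × ι) : ℕ :=
  if x f.1 < g ∧ g < x f.2 then 1 else 0

open Classical in
/-- does the flip cross one of the thresholds of `G`? -/
noncomputable def mac {ι : Type} (x : ι → ℝ) (G : Finset ℝ) (f : ι × ι) : ℕ :=
  if ∃ g ∈ G, x f.1 < g ∧ g < x f.2 then 1 else 0

theorem mac_le {ι : Type} (x : ι → ℝ) (G : Finset ℝ) (f : ι × ι) :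
    mac x G f ≤ ∑ g ∈ G, cross x g f := by
  unfold mac
  split_ifs with h
  · obtain ⟨g, hg, h1⟩ := h
    have h2 : cross x g f = 1 := by
      unfold cross
      rw [if_pos h1]
    calc 1 = cross x g f := h2.symm
      _ ≤ ∑ g ∈ G, cross x g f := Finset.single_le_sum (f := fun g => cross x g f)
        (fun _ _ => Nat.zero_le _) hg
  · exact Nat.zero_le _

theorem sum_mac_le {ι : Type} (x : ι → ℝ) (G : Finset ℝ) (L : List (ι × ι)) :
    (L.map (mac x G)).sum ≤ ∑ g ∈ G, (L.map (cross x g)).sum := by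
  induction L with
  | nil => simp
  | cons f L ih =>
    simp only [List.map_cons, List.sum_cons, Finset.sum_add_distrib]
    exact add_le_add (mac_le x G f) ih

theorem exists_gap {ι : Type} (x : ι → ℝ) (G : Finset ℝ) (hG : G.Nonempty) (L : List (ι × ι)) :
    ∃ g ∈ G, (L.map (mac x G)).sum ≤ G.card * (L.map (cross x g)).sum := by
  by_contra hcon
  push Not at hcon
  have h1 := sum_mac_le x G L
  have h2 : G.card * ∑ g ∈ G, (L.map (cross x g)).sum < G.card * (L.map (mac x G)).sum := by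
    rw [Finset.mul_sum]
    calc ∑ g ∈ G, G.card * (L.map (cross x g)).sum < ∑ g ∈ G, (L.map (mac x G)).sum :=
          Finset.sum_lt_sum_of_nonempty hG hcon
      _ = G.card * (L.map (mac x G)).sum := by simp
  have h3 := lt_of_mul_lt_mul_left h2 (Nat.zero_le _)
  omega

section count

variable {ι : Type} {x a b : ι → ℝ} {t : ℝ} {x' a' b' : ι × Bool → ℝ} {G : Finset ℝ}

theorem mac_blow (h6 : ∀ p c, ∀ g ∈ G, x p < g → x' (p, c) < g)
    (h7 : ∀ p c, ∀ g ∈ G, g < x p → g < x' (p, c)) (hG : ∀ p, ∀ g ∈ G, x p ≠ g)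
    (p q : ι) (c d : Bool) : mac x' G ((p, c), (q, d)) = mac x G (p, q) := by
  unfold mac
  congr 1
  apply propext
  apply exists_congr
  intro g
  apply and_congr_right
  intro hg
  constructor
  · rintro ⟨h1, h2⟩
    constructor
    · rcases lt_or_gt_of_ne (hG p g hg) with h | h
      · exact h
      · exact absurd (h7 p c g hg h) (not_lt.2 h1.le)
    · rcases lt_or_gt_of_ne (hG q g hg) with h | h
      · exact absurd (h6 q d g hg h) (not_lt.2 h2.le)
      · exact h
  · rintro ⟨h1, h2⟩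
    exact ⟨h6 p c g hg h1, h7 q d g hg h2⟩

theorem mac_blow_self (h6 : ∀ p c, ∀ g ∈ G, x p < g → x' (p, c) < g)
    (h7 : ∀ p c, ∀ g ∈ G, g < x p → g < x' (p, c)) (hG : ∀ p, ∀ g ∈ G, x p ≠ g)
    (p : ι) (c d : Bool) : mac x' G ((p, c), (p, d)) = 0 := by
  rw [mac_blow h6 h7 hG]
  unfold mac
  rw [if_neg]
  rintro ⟨g, _, h1, h2⟩
  exact lt_asymm h1 h2

theorem cross_one_iff (ht : ∀ p, x p ≠ t) {p q : ι} (hpq : x p < x q) :
    cross x t (p, q) = if decide (t < x p) = decide (t < x q) then 0 else 1 := by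
  unfold cross
  rcases lt_or_gt_of_ne (ht p) with h | h <;> rcases lt_or_gt_of_ne (ht q) with h' | h'
  · have h1 : ¬ (t < x p) := not_lt.2 h.le
    have h2 : ¬ (t < x q) := not_lt.2 h'.le
    simp [h1, h2]
  · have : ¬ (t < x p) := not_lt.2 h.le
    simp [h, h', this]
  · exact absurd hpq (not_lt.2 (h'.trans h).le)
  · simp [h, h', h.le, h'.le]

theorem sim_length (ht : ∀ p, x p ≠ t) {p q : ι} (hpq : x p < x q) :
    (sim (fun p => decide (t < x p)) (p, q)).length = 4 + 2 * cross x t (p, q) := by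
  rw [cross_one_iff ht hpq]
  unfold sim
  split_ifs with h <;> simp

theorem sim_mac (h6 : ∀ p c, ∀ g ∈ G, x p < g → x' (p, c) < g)
    (h7 : ∀ p c, ∀ g ∈ G, g < x p → g < x' (p, c)) (hG : ∀ p, ∀ g ∈ G, x p ≠ g)
    (ht : t ∈ G) {p q : ι} (hpq : x p < x q) :
    ((sim (fun p => decide (t < x p)) (p, q)).map (mac x' G)).sum + 2 * cross x t (p, q) =
      4 * mac x G (p, q) := by
  rw [cross_one_iff (fun p => hG p t ht) hpq]
  unfold sim
  by_cases h : decide (t < x p) = decide (t < x q)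
  · rw [if_pos h, if_pos h]
    simp only [List.map_cons, List.map_nil, List.sum_cons, List.sum_nil, mac_blow h6 h7 hG]
    ring
  · rw [if_neg h, if_neg h]
    have h1 : mac x G (p, q) = 1 := by
      unfold mac
      rw [if_pos]
      refine ⟨t, ht, ?_⟩
      have h2 := cross_one_iff (fun p => hG p t ht) hpq
      rw [if_neg h] at h2
      unfold cross at h2
      by_contra hcon
      rw [if_neg hcon] at h2
      exact absurd h2 (by norm_num)
    simp only [List.map_cons, List.map_nil, List.sum_cons, List.sum_nil, mac_blow_self h6 h7 hG]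
    rw [mac_blow h6 h7 hG, h1]
    norm_num

end count

/-- There is a configuration with `n` positions, avoiding `G`, with a flip sequence of length `T`,
`M` of whose flips cross `G`. -/
def Conf (G : Finset ℝ) (n T M : ℕ) : Prop :=
  ∃ (ι : Type) (_ : Fintype ι) (_ : DecidableEq ι) (x a b : ι → ℝ) (σ τ : Perm ι)
    (L : List (ι × ι)), Good x a b ∧ Fintype.card ι = n ∧ (∀ p, ∀ g ∈ G, x p ≠ g) ∧
    Path x a b σ L τ ∧ L.length = T ∧ (L.map (mac x G)).sum = M

theorem flatMap_length {ι : Type} {x : ι → ℝ} {t : ℝ} (ht : ∀ p, x p ≠ t) (L : List (ι × ι))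
    (hL : ∀ f ∈ L, x f.1 < x f.2) :
    (L.flatMap (sim (fun p => decide (t < x p)))).length =
      4 * L.length + 2 * (L.map (cross x t)).sum := by
  induction L with
  | nil => simp
  | cons f L ih =>
    rw [List.flatMap_cons, List.length_append, ih (fun f hf => hL f (List.mem_cons_of_mem _ hf)),
      List.map_cons, List.sum_cons, List.length_cons]
    have := sim_length ht (hL f List.mem_cons_self)
    have h2 : ((f.1, f.2) : ι × ι) = f := rfl
    rw [h2] at this
    rw [this]
    ring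

theorem flatMap_mac {ι : Type} {x : ι → ℝ} {t : ℝ} {x' : ι × Bool → ℝ} {G : Finset ℝ}
    (h6 : ∀ p c, ∀ g ∈ G, x p < g → x' (p, c) < g)
    (h7 : ∀ p c, ∀ g ∈ G, g < x p → g < x' (p, c)) (hG : ∀ p, ∀ g ∈ G, x p ≠ g)
    (ht : t ∈ G) (L : List (ι × ι))
    (hL : ∀ f ∈ L, x f.1 < x f.2) :
    ((L.flatMap (sim (fun p => decide (t < x p)))).map (mac x' G)).sum +
      2 * (L.map (cross x t)).sum = 4 * (L.map (mac x G)).sum := by
  induction L with
  | nil => simp
  | cons f L ih =>
    rw [List.flatMap_cons, List.map_append, List.sum_append, List.map_cons, List.sum_cons,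
      List.map_cons, List.sum_cons]
    have h1 := ih (fun f hf => hL f (List.mem_cons_of_mem _ hf))
    have := sim_mac h6 h7 hG ht (hL f List.mem_cons_self)
    have h2 : ((f.1, f.2) : ι × ι) = f := rfl
    rw [h2] at this
    linarith

theorem Conf.step {G : Finset ℝ} (hG : G.Nonempty) {n T M : ℕ} (h : Conf G n T M) :
    ∃ T' M', Conf G (2 * n) T' M' ∧ T' + M' = 4 * (T + M) ∧
      G.card * M' + 2 * M ≤ 4 * (G.card * M) := by
  obtain ⟨ι, _, _, x, a, b, σ, τ, L, hgood, hn, havoid, hpath, hT, hM⟩ := h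
  obtain ⟨t, htG, ht⟩ := exists_gap x G hG L
  have ht' : ∀ p, x p ≠ t := fun p => havoid p t htG
  obtain ⟨x', a', b', B, h6, h7⟩ := exists_blow x a b t G
  have hlen := flatMap_length ht' L hpath.lt
  have hmac := flatMap_mac h6 h7 havoid htG L hpath.lt
  refine ⟨_, _, ⟨ι × Bool, inferInstance, inferInstance, x', a', b', _, _, _, B.good ht' hgood,
    ?_, ?_, lift_path B ht' hpath, rfl, rfl⟩, ?_, ?_⟩
  · rw [Fintype.card_prod, hn, Fintype.card_bool, mul_comm]
  · rintro ⟨p, c⟩ g hg
    rcases lt_or_gt_of_ne (havoid p g hg) with h | h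
    · exact (h6 p c g hg h).ne
    · exact (h7 p c g hg h).ne'
  · rw [hlen]
    rw [hT, hM] at *
    omega
  · rw [hM] at *
    have h3 : G.card * ((L.flatMap (sim (fun p => decide (t < x p)))).map (mac x' G)).sum +
        2 * (G.card * (L.map (cross x t)).sum) = 4 * (G.card * M) := by
      rw [mul_left_comm 4 G.card, ← hmac]
      ring
    linarith

theorem Conf.iter {G : Finset ℝ} (hG : G.Nonempty) {n T M : ℕ} (h : Conf G n T M) (j : ℕ) :
    ∃ T' M', Conf G (2 ^ j * n) T' M' ∧ T' + M' = 4 ^ j * (T + M) ∧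
      (M' : ℝ) ≤ (4 - 2 / G.card) ^ j * M := by
  induction j with
  | zero => exact ⟨T, M, by simpa using h, by simp, by simp⟩
  | succ j ih =>
    obtain ⟨T1, M1, h1, h2, h3⟩ := ih
    obtain ⟨T2, M2, h4, h5, h6⟩ := h1.step hG
    have hm : (1 : ℝ) ≤ G.card := by
      exact_mod_cast hG.card_pos
    have hm0 : (0 : ℝ) < G.card := by linarith
    refine ⟨T2, M2, ?_, ?_, ?_⟩
    · rw [pow_succ]
      convert h4 using 1
      ring
    · rw [h5, h2, pow_succ]
      ring
    · have h7 : (G.card : ℝ) * M2 + 2 * M1 ≤ 4 * (G.card * M1) := by exact_mod_cast h6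
      have h8 : (M2 : ℝ) ≤ (4 - 2 / G.card) * M1 := by
        have : (4 - 2 / (G.card : ℝ)) * M1 = (4 * (G.card * M1) - 2 * M1) / G.card := by
          field_simp
        rw [this, le_div_iff₀ hm0]
        linarith
      have h9 : 0 ≤ 4 - 2 / (G.card : ℝ) := by
        have : 2 / (G.card : ℝ) ≤ 2 := by
          rw [div_le_iff₀ hm0]
          linarith
        linarith
      calc (M2 : ℝ) ≤ (4 - 2 / G.card) * M1 := h8
        _ ≤ (4 - 2 / G.card) * ((4 - 2 / G.card) ^ j * M) := mul_le_mul_of_nonneg_left h3 h9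
        _ = (4 - 2 / G.card) ^ (j + 1) * M := by ring

/-- Every configuration can be equipped with thresholds crossed by every flip. -/
theorem exists_thresholds {ι : Type} [Fintype ι] (x : ι → ℝ) (L : List (ι × ι))
    (hL : ∀ f ∈ L, x f.1 < x f.2) :
    ∃ G : Finset ℝ, (∀ p, ∀ g ∈ G, x p ≠ g) ∧ (L.map (mac x G)).sum = L.length := by
  have e1 : ∀ᶠ η in 𝓝[>] (0 : ℝ), ∀ (p q : ι), x p < x q → x p + η < x q := by
    simp only [eventually_all]
    intro p q h
    apply ev_lt (by fun_prop) (by fun_prop)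
    simpa using h
  have e0 : ∀ᶠ η in 𝓝[>] (0 : ℝ), 0 < η := eventually_mem_nhdsWithin
  obtain ⟨η, h0, h1⟩ := (e0.and e1).exists
  classical
  refine ⟨Finset.univ.image (fun p => x p + η), ?_, ?_⟩
  · intro p g hg he
    obtain ⟨q, _, rfl⟩ := Finset.mem_image.1 hg
    have h2 : x q < x p := by linarith
    have h3 := h1 q p h2
    linarith
  · clear e0 e1
    induction L with
    | nil => simp
    | cons f L ih =>
      rw [List.map_cons, List.sum_cons, ih (fun f hf => hL f (List.mem_cons_of_mem _ hf)),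
        List.length_cons]
      have h2 := hL f List.mem_cons_self
      have : mac x (Finset.univ.image (fun p => x p + η)) f = 1 := by
        unfold mac
        rw [if_pos]
        exact ⟨x f.1 + η, Finset.mem_image_of_mem _ (Finset.mem_univ _), by linarith, h1 _ _ h2⟩
      rw [this, add_comm]

/-- One stage: the ratio `T / n^2` is multiplied by `3/2`. -/
theorem Conf.stage {n T : ℕ} (hn : 0 < n) (h : Conf ∅ n T 0) :
    ∃ n' T', 0 < n' ∧ Conf ∅ n' T' 0 ∧
      (3 / 2 : ℝ) * T * (n' : ℝ) ^ 2 ≤ T' * (n : ℝ) ^ 2 := by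
  obtain ⟨ι, _, _, x, a, b, σ, τ, L, hgood, hcard, -, hpath, hT, -⟩ := h
  obtain ⟨G, hG1, hG2⟩ := exists_thresholds x L hpath.lt
  rcases G.eq_empty_or_nonempty with hGe | hGn
  · -- no thresholds: no flips
    subst hGe
    have h0 : L.length = 0 := by
      rw [← hG2]
      clear hG2 hT hpath
      induction L with
      | nil => rfl
      | cons f L ih =>
        rw [List.map_cons, List.sum_cons, ih]
        simp [mac]
    have hT0 : T = 0 := by rw [← hT, h0]
    refine ⟨n, T, hn, ⟨ι, inferInstance, inferInstance, x, a, b, σ, τ, L, hgood, hcard,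
      by simp, hpath, hT, ?_⟩, ?_⟩
    · rw [hG2, h0]
    · rw [hT0]
      simp
  · have hconf : Conf G n T T := ⟨ι, inferInstance, inferInstance, x, a, b, σ, τ, L, hgood, hcard,
      hG1, hpath, hT, by rw [hG2, hT]⟩
    set m : ℝ := (G.card : ℝ) with hm
    have hm1 : (1 : ℝ) ≤ m := by
      rw [hm]
      exact_mod_cast hGn.card_pos
    have hm0 : 0 < m := by linarith
    have hr0 : 0 ≤ 1 - 1 / (2 * m) := by
      have : 1 / (2 * m) ≤ 1 := by
        rw [div_le_iff₀ (by positivity)]
        linarith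
      linarith
    have hr1 : 1 - 1 / (2 * m) < 1 := by
      have : 0 < 1 / (2 * m) := by positivity
      linarith
    obtain ⟨j, hj⟩ := exists_pow_lt_of_lt_one (by norm_num : (0 : ℝ) < 1 / 2) hr1
    obtain ⟨T', M', hc, h1, h2⟩ := hconf.iter hGn j
    refine ⟨2 ^ j * n, T', by positivity, ?_, ?_⟩
    · obtain ⟨ι, _, _, x, a, b, σ, τ, L, hgood, hcard, -, hpath, hT, -⟩ := hc
      refine ⟨ι, inferInstance, inferInstance, x, a, b, σ, τ, L, hgood, hcard, by simp, hpath, hT,
        ?_⟩
      clear hT hpath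
      induction L with
      | nil => rfl
      | cons f L ih =>
        rw [List.map_cons, List.sum_cons, ih]
        simp [mac]
    · have h3 : (T' : ℝ) + M' = 4 ^ j * (T + T) := by exact_mod_cast h1
      have h4 : (4 - 2 / m) ^ j = 4 ^ j * (1 - 1 / (2 * m)) ^ j := by
        rw [← mul_pow]
        congr 1
        field_simp
        ring
      rw [← hm, h4] at h2
      have h5 : (M' : ℝ) ≤ 4 ^ j * (1 / 2) * T := by
        calc (M' : ℝ) ≤ 4 ^ j * (1 - 1 / (2 * m)) ^ j * T := h2
          _ ≤ 4 ^ j * (1 / 2) * T := by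
            apply mul_le_mul_of_nonneg_right _ (Nat.cast_nonneg _)
            exact mul_le_mul_of_nonneg_left hj.le (by positivity)
      have h6 : 4 ^ j * (3 / 2) * (T : ℝ) ≤ T' := by linarith
      have h7 : ((2 ^ j * n : ℕ) : ℝ) ^ 2 = 4 ^ j * (n : ℝ) ^ 2 := by
        push_cast
        rw [mul_pow, ← pow_mul, mul_comm j 2, pow_mul]
        norm_num
      rw [h7]
      have h8 : (0 : ℝ) ≤ (n : ℝ) ^ 2 := by positivity
      nlinarith [mul_le_mul_of_nonneg_right h6 h8]

theorem conf_base : Conf ∅ 2 1 0 := by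
  refine ⟨Bool, inferInstance, inferInstance, fun p => if p then 1 else 0, fun _ => 0,
    fun l => if l then 0 else 1, 1, swap false true, [(false, true)], ⟨?_, ?_⟩, by simp, by simp,
    ?_, rfl, ?_⟩
  · intro p q h
    cases p <;> cases q <;> simp_all
  · intro p l l' h
    cases l <;> cases l' <;> simp_all
  · refine Path.cons ?_ ?_ ?_ ?_
    · simp
    · simp
    · simp
    · rw [one_mul]
      exact Path.nil _
  · simp [mac]

theorem conf_all (s : ℕ) : ∃ n T, 0 < n ∧ Conf ∅ n T 0 ∧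
    (3 / 2 : ℝ) ^ s * (n : ℝ) ^ 2 ≤ 4 * T := by
  induction s with
  | zero => exact ⟨2, 1, by norm_num, conf_base, by norm_num⟩
  | succ s ih =>
    obtain ⟨n, T, hn, hc, h⟩ := ih
    obtain ⟨n', T', hn', hc', h'⟩ := hc.stage hn
    refine ⟨n', T', hn', hc', ?_⟩
    have h1 : (0 : ℝ) < (n : ℝ) ^ 2 := by positivity
    have h2 : (0 : ℝ) ≤ (n' : ℝ) ^ 2 := by positivity
    have h3 := mul_le_mul_of_nonneg_right h h2
    have h4 : (3 / 2 : ℝ) ^ (s + 1) * (n' : ℝ) ^ 2 * (n : ℝ) ^ 2 ≤ 4 * T' * (n : ℝ) ^ 2 := by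
      calc (3 / 2 : ℝ) ^ (s + 1) * (n' : ℝ) ^ 2 * (n : ℝ) ^ 2
          = (3 / 2) * ((3 / 2 : ℝ) ^ s * (n : ℝ) ^ 2 * (n' : ℝ) ^ 2) := by ring
        _ ≤ (3 / 2) * (4 * T * (n' : ℝ) ^ 2) := by linarith
        _ = 4 * ((3 / 2) * T * (n' : ℝ) ^ 2) := by ring
        _ ≤ 4 * (T' * (n : ℝ) ^ 2) := by linarith
        _ = 4 * T' * (n : ℝ) ^ 2 := by ring
    exact le_of_mul_le_mul_right h4 h1

end Pool.Agent.FlipSeq
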